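import Pool.Agent.Helper346.Bra.StDefs
import Pool.Agent.Helper346.Bra.StDefs5
import Pool.Agent.Helper346.Bra.Fin5

set_option autoImplicit false

namespace Pool.Agent.Results.MP_c5a777_ag.ThreeAndFive

open Pool.Agent.Helper346.Bra

/-- The primes `3` and `5` occur: there is a smooth cubic surface over `ℂ(t)` whose function field
has an unramified Brauer class over `ℂ` of order three, and a del Pezzo surface of degree one over
`ℂ(t)` whose function field has an unramified Brauer class over `ℂ` of order five. -/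
theorem result :
    (∃ F : MvPolynomial (Fin 4) (RatFunc ℂ), IsSmoothCubic (RatFunc ℂ) F ∧
      ∃ (K : Type) (_ : Field K) (_ : Algebra (affRing (RatFunc ℂ) F) K) (_ : Algebra ℂ K),
        IsFractionRing (affRing (RatFunc ℂ) F) K ∧
        IsScalarTower ℂ (affRing (RatFunc ℂ) F) K ∧
        HasUnramifiedOrderThree ℂ K) ∧
    (∃ F : MvPolynomial (Fin 4) (RatFunc ℂ), IsDelPezzoOne (RatFunc ℂ) F ∧
      ∃ (K : Type) (_ : Field K) (_ : Algebra (affRing1 (RatFunc ℂ) F) K) (_ : Algebra ℂ K),
        IsFractionRing (affRing1 (RatFunc ℂ) F) K ∧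
        IsScalarTower ℂ (affRing1 (RatFunc ℂ) F) K ∧
        HasUnramifiedOrderFive ℂ K) :=
  ⟨main_result ℂ, main_result5 ℂ⟩

end Pool.Agent.Results.MP_c5a777_ag.ThreeAndFive
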